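import Pool.Agent.W482.S33.Sub

/-!
The projection `S³ × S³ → S³` from a positively curved metric: conclusion.
-/

open Bundle Manifold ContDiff ContinuousLinearMap Filter VectorField Metric Module
open scoped Topology RealInnerProductSpace

set_option autoImplicit false
set_option synthInstance.maxHeartbeats 400000
set_option maxHeartbeats 4000000
set_option linter.unusedSectionVars false

noncomputable section

namespace Pool.Agent.W482.S33

open Pool.Agent.H821R2 Pool.Agent.H893R5.HO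
open HopfPP HopfG HopfG.Eqv HopfG.HS
open Pool.Agent.H878R5 (PositivelyCurved)
open Pool.Agent.H839R2.RS

/-- the assertion asked for by Wilhelm: for every Riemannian submersion of a closed connected
positively curved manifold onto a closed connected manifold of dimension `b ≥ 1` with fibres of
dimension `k ≥ 1` one has `k < b` -/
def SubmersionBound : Prop :=
  ∀ (k b : ℕ) (E : Type) [NormedAddCommGroup E] [NormedSpace ℝ E]
    (H : Type) [TopologicalSpace H] (I : ModelWithCorners ℝ E H)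
    (M : Type) [TopologicalSpace M] [ChartedSpace H M] [IsManifold I ∞ M]
    (E' : Type) [NormedAddCommGroup E'] [NormedSpace ℝ E']
    (H' : Type) [TopologicalSpace H'] (I' : ModelWithCorners ℝ E' H')
    (B : Type) [TopologicalSpace B] [ChartedSpace H' B] [IsManifold I' ∞ B] (f : M → B),
    1 ≤ k → 1 ≤ b → PositiveSubmersion k b I I' f → k < b

theorem connected3 : ConnectedSpace S3 := by
  apply Subtype.connectedSpace
  apply isConnected_sphere
  · rw [← Module.finrank_eq_rank]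
    simp
  · norm_num

theorem closed3 : IsClosedMfd (𝓡 3) 3 S3 := by
  have h : ConnectedSpace S3 := connected3
  exact ⟨inferInstance, by simp, inferInstance, inferInstance, inferInstance, inferInstance,
    inferInstance, h⟩

theorem closed33 : IsClosedMfd ((𝓡 3).prod (𝓡 3)) (3 + 3) (S3 × S3) := by
  have h : ConnectedSpace S3 := connected3
  exact ⟨inferInstance, by simp, inferInstance, inferInstance, inferInstance, inferInstance,
    inferInstance, inferInstance⟩

theorem symM_W (b μ e l : ℝ) : G2.SymM (Dfr b μ e l).W := symM_Dfr_W b μ e l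

/-- the metric, its positivity and its cometric -/
theorem exists_dual {D : HopfG.HS.Dat ℝ} (hW : G2.SymM D.W) (hWp : G2.SymM D.Wp)
    (hpd : ∀ (x g : Q4 ℝ), qd x x = 1 → qd g g = 1 → ∀ c : V6 ℝ, c ≠ 0 →
      0 < dt6 c (K0 (D.at x) g c))
    (hpos : ∀ (x g : Q4 ℝ) (α β Γ : V6 ℝ), qd x x = 1 → qd g g = 1 →
      dt6 α α = 1 → dt6 β β = 1 → dt6 α β = 0 → 0 < PS (D.at x) g α β Γ) :
    XX3.Com (WW D hW hWp) ∧
    ∃ g : ContMDiffRiemannianMetric I33 ∞ (EuclideanSpace ℝ (Fin 3) × EuclideanSpace ℝ (Fin 3))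
        (fun x : S33 => TangentSpace I33 x), PositivelyCurved g ∧ XX3.Dual g (WW D hW hWp) := by
  have hs : ∀ z c d, sB U3 U3 (Kf D hW hWp z c) d = sB U3 U3 c (Kf D hW hWp z d) := fun z c d => by
      rw [cv6_dt6, cv6_dt6, Kf_apply, Kf_apply, cv6_vc6, cv6_vc6, (laws D hW hWp z).y0]
  have hp : ∀ x y : U4, ‖x‖ = 1 → ‖y‖ = 1 → ∀ c : C6, c ≠ 0 →
      0 < sB U3 U3 c (Kf D hW hWp (x, y) c) := fun x y hx hy c hc => by
      rw [cv6_dt6, Kf_apply, cv6_vc6]
      exact hpd _ _ (qd_c4 hx) (qd_gz (z := (x, y)) hx hy) _ (cv6_ne hc)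
  refine ⟨m33.com (Kf_smooth D hW hWp) hs (fun p c hc => hp (p.1 : U4) (p.2 : U4)
    (norm_eq_of_mem_sphere p.1) (norm_eq_of_mem_sphere p.2) c hc), ?_⟩
  obtain ⟨g, cov, R, hc, hR, hd, hsec⟩ := exists_pos_S33 (Kf_smooth D hW hWp)
    (hasFDerivAt_Kf D hW hWp) (hasFDerivAt_Kf1 D hW hWp) hs hp
    (fun x y hx hy α β Γ ha hb hab => by
      have h4 := PM33_eq (K0 := Kf D hW hWp (x, y)) (K1 := m33.k1 (Kf1 D hW hWp) (x, y))
        (K2 := m33.k2 (Kf1 D hW hWp) (Kf2 D hW hWp) (x, y))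
        (K0' := K0 (D.at (c4 x)) (gz (x, y))) (K1' := K1 (D.at (c4 x)) (gz (x, y)))
        (K2' := K2 (D.at (c4 x)) (gz (x, y)))
        (fun a => by rw [Kf_apply, cv6_vc6]) (fun w a => k1_eq D hW hWp (x, y) w a)
        (fun w u a => k2_eq D hW hWp (x, y) w u a) α β Γ
      rw [cv6_dt6] at ha hb hab
      have h5 := hpos (c4 x) (gz (x, y)) (cv6 α) (cv6 β) (cv6 Γ) (qd_c4 hx)
        (qd_gz (z := (x, y)) hx hy) ha hb hab
      rw [PS, ← h4] at h5
      linarith)
  refine ⟨g, ⟨⟨cov, R, hc, hR⟩, ?_⟩, hd⟩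
  intro cov' R' hc' hR' p u v huv
  have h1 := hsec p u v huv
  have h2 : R' p u v v = R p u v v := riemann_unique hc' hc hR' hR p u v v
  rw [sec] at h1 ⊢
  rw [h2]
  exact h1

theorem positive : PositiveSubmersion 3 3 ((𝓡 3).prod (𝓡 3)) (𝓡 3)
    (Prod.fst : S3 × S3 → S3) := by
  obtain ⟨b, μ, e, l, hb, hμ, he, hl, hG⟩ := H515HS.fin0 (1 / 100) (by norm_num)
  obtain ⟨hC, g, hg, hd⟩ := exists_dual (symM_Dfr_W b μ e l) (symM_Dfr_Wp b μ e l)
    (fun x g hx hg c hc => C124.pos_K0 hb.le hμ.le he.le hl.le x g hx hg c hc) hG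
  obtain ⟨h, hh⟩ := submersion _ _ _ hC hd
  exact ⟨closed33, closed3, g, h, hg, hh⟩

theorem main : PositiveProjection 3 3 (𝓡 3) S3 (𝓡 3) S3 ∧ ¬ SubmersionBound := by
  refine ⟨positive, fun h => ?_⟩
  have := h 3 3 _ _ _ _ _ _ _ _ _ (by norm_num) (by norm_num) positive
  omega

end Pool.Agent.W482.S33
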