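import Pool.Agent.H515R2.HS.Fin
import Pool.Agent.H893R5.HS.Fin
import Pool.Agent.H839R2.HO.RSub

/-!
The projection `S³ × S³ → S³` of the positively curved metric on `S³ × S³` is a Riemannian
submersion for a suitable metric on `S³`.
-/

open Bundle Manifold ContDiff ContinuousLinearMap Filter VectorField Metric Module
open scoped Topology RealInnerProductSpace

set_option autoImplicit false
set_option synthInstance.maxHeartbeats 400000
set_option maxHeartbeats 4000000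
set_option linter.unusedSectionVars false
set_option linter.unusedSimpArgs false

noncomputable section

namespace Pool.Agent.W482.S33

open Pool.Agent.H821R2 Pool.Agent.H893R5.HO
open HopfPP HopfG HopfG.Eqv HopfG.HS
open Pool.Agent.H878R5 (PositivelyCurved)
open Pool.Agent.H839R2.RS

/-- the unit sphere of `ℝ⁴` -/
abbrev S3 : Type := sphere (0 : U4) 1

/-- the inclusion `S³ → ℝ⁴` -/
def j3 (p : S3) : U4 := (p : U4)

theorem smooth_j3 : ContMDiff (𝓡 3) 𝓘(ℝ, U4) ∞ j3 :=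
  contMDiff_coe_sphere (m := ∞) (E := U4) (n := 3)

/-- the projection `id - z ⊗ z` -/
def P3 (z : U4) : U4 →L[ℝ] U4 := ContinuousLinearMap.id ℝ U4 - (innerSL ℝ z).smulRight z

theorem P3_apply (z a : U4) : P3 z a = a - ⟪z, a⟫ • z := by simp [P3]

theorem orth3 (p : S3) (v : TangentSpace (𝓡 3) p) : ⟪(p : U4), mvfderiv (𝓡 3) j3 p v⟫ = 0 := by
  have h : mvfderiv (𝓡 3) j3 p v ∈ (ℝ ∙ (p : U4))ᗮ := by
    rw [← range_mvfderiv_subtypeVal (E := U4) (n := 3) p]
    exact ⟨_, rfl⟩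
  exact Submodule.mem_orthogonal_singleton_iff_inner_right.1 h

/-- `S³` as an immersed manifold -/
def X3 : Emb (𝓡 3) S3 U4 where
  B := innerSL ℝ
  Bsymm a b := by
    rw [innerSL_apply_apply, innerSL_apply_apply, real_inner_comm]
  Bpos a ha := by
    rw [innerSL_apply_apply]
    exact real_inner_self_pos.2 ha
  j := j3
  hj := smooth_j3
  inj p v h := injective_mvfderiv_subtypeVal_sphere (E := U4) (n := 3) p (h.trans (map_zero _).symm)
  P := P3
  hP := contDiff_const.sub ((innerSL ℝ (E := U4)).contDiff.smulRight contDiff_id)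
  Psymm p a b := by
    rw [innerSL_apply_apply, innerSL_apply_apply, P3_apply, P3_apply]
    simp only [inner_sub_left, inner_sub_right, real_inner_smul_left, real_inner_smul_right]
    rw [real_inner_comm (j3 p) a]
    ring
  Pd p v := by
    rw [P3_apply]
    have h := orth3 p v
    change mvfderiv (𝓡 3) j3 p v - ⟪(p : U4), mvfderiv (𝓡 3) j3 p v⟫ • (p : U4) = _
    rw [h, zero_smul, sub_zero]
  rng p a := by
    have h1 : a - ⟪(p : U4), a⟫ • (p : U4) ∈ (ℝ ∙ (p : U4))ᗮ :=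
      Submodule.mem_orthogonal_singleton_iff_inner_right.2 (by
        rw [inner_sub_right, real_inner_smul_right, inner_self_sph]
        ring)
    rw [← range_mvfderiv_subtypeVal (E := U4) (n := 3) p] at h1
    obtain ⟨v, hv⟩ := h1
    refine ⟨v, ?_⟩
    rw [P3_apply]
    exact hv

theorem X3_B (a b : U4) : X3.B a b = ⟪a, b⟫ := rfl

theorem X3_j (p : S3) : X3.j p = (p : U4) := rfl

theorem X3_P (z a : U4) : X3.P z a = a - ⟪z, a⟫ • z := P3_apply z a

/-- `S³ × S³` as an immersed manifold -/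
abbrev XX3 : Emb I33 S33 (U4 × U4) := sph 3 3 U4 U4

theorem XX3_B (a b : U4 × U4) : XX3.B a b = ⟪a.1, b.1⟫ + ⟪a.2, b.2⟫ := rfl

theorem XX3_j (p : S33) : XX3.j p = ((p.1 : U4), (p.2 : U4)) := rfl

theorem XX3_P (z a : U4 × U4) : XX3.P z a = (a.1 - ⟪z.1, a.1⟫ • z.1, a.2 - ⟪z.2, a.2⟫ • z.2) := by
  change a - sN z a = _
  rw [sN_apply]
  rfl

theorem XX3_d_fst (p : S33) (v : TangentSpace I33 p) :
    (XX3.d p v).1 = X3.d p.1 (v.1 : EuclideanSpace ℝ (Fin 3)) :=
  congrArg Prod.fst (d_sj 3 3 p v)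

/-! ### block independence -/

theorem Ad_zero (g : Q4 ℝ) : Ad g (0 : V ℝ) = 0 := by
  have h := Ad_smul g (0 : ℝ) (0 : V ℝ)
  simpa using h

theorem cx_zero_left (n : V ℝ) : cx (0 : V ℝ) n = 0 := by
  funext i; fin_cases i <;> simp [cx]

/-- the first component of the cometric of `(α, 0)` does not depend on `g` -/
theorem K0_fst (D : HopfG.HS.Dat ℝ) (g g' : Q4 ℝ) (a : V ℝ) : (K0 D g (a, 0)).1 = (K0 D g' (a, 0)).1 := by
  simp only [K0, pW, HopfG.HS.h0, q0, HopfG.HS.sS, Prod.fst_add, Prod.smul_fst, Ad_zero, cx_zero_left, smul_zero,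
    add_zero, sub_zero]

theorem qJ_zero (x : U4) : qJ x 0 = 0 := by
  refine ext_U3 ?_ ?_ ?_ <;> simp

section

variable (D : HopfG.HS.Dat ℝ) (hW : G2.SymM D.W) (hWp : G2.SymM D.Wp)

/-- the cometric on `S³ × S³` -/
abbrev WW (z : U4 × U4) : U4 × U4 →L[ℝ] U4 × U4 := m33.WK (Kf D hW hWp) z

theorem WW_apply (z a : U4 × U4) : WW D hW hWp z a =
    R33 (Kf D hW hWp z (J33 z a)) z := rfl

theorem block (x : U4) (y y' : U4) (a : U4) :
    (WW D hW hWp (x, y) (a, 0)).1 = (WW D hW hWp (x, y') (a, 0)).1 := by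
  rw [WW_apply, WW_apply, R33_apply, R33_apply, J33_apply, J33_apply, Kf_apply, Kf_apply]
  change qR (vc (K0 (D.at (c4 x)) (gz (x, y)) (cv (qJ x a), cv (qJ y 0))).1) x =
    qR (vc (K0 (D.at (c4 x)) (gz (x, y')) (cv (qJ x a), cv (qJ y' 0))).1) x
  rw [qJ_zero, qJ_zero]
  have h0 : cv (0 : U3) = (0 : V ℝ) := by
    funext i; fin_cases i <;> rfl
  rw [h0, K0_fst]

/-- a point of `S³` -/
def y0 : S3 := ⟨EuclideanSpace.single 0 1, by simp⟩

/-- the cometric of the base -/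
def W3 (x : U4) : U4 →L[ℝ] U4 :=
  (ContinuousLinearMap.fst ℝ U4 U4).comp ((WW D hW hWp (x, (y0 : U4))).comp
    (ContinuousLinearMap.inl ℝ U4 U4))

theorem W3_apply (x a : U4) : W3 D hW hWp x a = (WW D hW hWp (x, (y0 : U4)) (a, 0)).1 := rfl

theorem W3_eq (x a : U4) (y : U4) : (WW D hW hWp (x, y) (a, 0)).1 = W3 D hW hWp x a :=
  block D hW hWp x y _ a

theorem com3 (hC : XX3.Com (WW D hW hWp)) : X3.Com (W3 D hW hWp) where
  smooth := contDiff_const.clm_comp
    ((hC.smooth.comp (contDiff_id.prodMk contDiff_const)).clm_comp contDiff_const)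
  symm z a b := by
    have h := hC.symm (z, (y0 : U4)) (a, 0) (b, 0)
    rw [XX3_B, XX3_B] at h
    simp only [inner_zero_left, inner_zero_right, add_zero] at h
    rw [X3_B, X3_B, W3_apply, W3_apply]
    exact h
  tan p a := by
    have h := congrArg Prod.fst (hC.tan (p, y0) (a, 0))
    rw [XX3_P] at h
    rw [X3_P]
    exact h
  pos p a ha hne := by
    have h := hC.pos (p, y0) (a, 0) (by
      rw [XX3_P]
      rw [X3_P] at ha
      refine Prod.ext ha ?_
      simp) (fun h => hne (congrArg Prod.fst h))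
    rw [XX3_B] at h
    simp only [inner_zero_left, add_zero] at h
    exact h

/-- **the projection `S³ × S³ → S³` is a Riemannian submersion** -/
theorem submersion {g : ContMDiffRiemannianMetric I33 ∞
      (EuclideanSpace ℝ (Fin 3) × EuclideanSpace ℝ (Fin 3))
      (fun x : S33 => TangentSpace I33 x)}
    (hC : XX3.Com (WW D hW hWp)) (hg : XX3.Dual g (WW D hW hWp)) :
    ∃ h : ContMDiffRiemannianMetric (𝓡 3) ∞ (EuclideanSpace ℝ (Fin 3))
      (fun x : S3 => TangentSpace (𝓡 3) x),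
      IsRiemannianSubmersion g h (Prod.fst : S3 × S3 → S3) := by
  obtain ⟨h, hh⟩ := Emb.exists_metric (com3 D hW hWp hC)
  have hD : ∀ (p : S3 × S3) (v : TangentSpace ((𝓡 3).prod (𝓡 3)) p),
      mfderiv ((𝓡 3).prod (𝓡 3)) (𝓡 3) (Prod.fst : S3 × S3 → S3) p v = v.1 := by
    intro p v
    rw [mfderiv_fst]
    rfl
  -- horizontal vectors
  have hhor : ∀ (p : S3 × S3) (v : TangentSpace ((𝓡 3).prod (𝓡 3)) p),
      IsHorizontal g (𝓡 3) (Prod.fst : S3 × S3 → S3) p v →
      ∃ b : U4, XX3.d p v = WW D hW hWp (XX3.j p) (b, 0) := by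
    intro p v hv
    obtain ⟨a, ha1, ha⟩ := Emb.exists_covec hC hg p v
    obtain ⟨u, hu⟩ := XX3.rng p (0, a.2)
    have hu' : XX3.d p u = (0, a.2) := by
      have h1 := congrArg Prod.snd ha1
      rw [XX3_P] at h1
      refine hu.trans ?_
      rw [XX3_P]
      refine Prod.ext ?_ h1
      simp
    have hu0 : mfderiv ((𝓡 3).prod (𝓡 3)) (𝓡 3) (Prod.fst : S3 × S3 → S3) p u = 0 := by
      rw [hD]
      apply X3.d_inj p.1
      refine (XX3_d_fst p u).symm.trans ?_
      rw [hu', map_zero]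
    have h1 := hv u hu0
    rw [hg p a v ha.symm, hu', XX3_B] at h1
    simp only [inner_zero_right, zero_add] at h1
    have h3 : a.2 = 0 := inner_self_eq_zero.1 h1
    refine ⟨a.1, ?_⟩
    rw [← ha]
    congr 1
    exact Prod.ext rfl h3
  have hX3 : ∀ (p : S3 × S3) (v : TangentSpace ((𝓡 3).prod (𝓡 3)) p) (b : U4),
      XX3.d p v = WW D hW hWp (XX3.j p) (b, 0) → X3.d p.1 (v.1 : EuclideanSpace ℝ (Fin 3)) =
        W3 D hW hWp (X3.j p.1) b := by
    intro p v b hb
    rw [← XX3_d_fst, hb]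
    exact W3_eq D hW hWp _ _ _
  refine ⟨h, ⟨contMDiff_fst, fun y => ⟨(y, y0), rfl⟩, ?_, ?_⟩⟩
  · intro p v w hv _
    obtain ⟨b, hb1⟩ := hhor p v hv
    rw [hD, hD, hg p _ v hb1, XX3_B]
    refine (hh p.1 b v.1 (hX3 p v b hb1) w.1).trans ?_
    rw [X3_B, ← XX3_d_fst]
    simp
  · intro p w
    obtain ⟨b, hb1, hb⟩ := Emb.exists_covec (com3 D hW hWp hC) hh p.1 w
    obtain ⟨v, hv⟩ := XX3.rng p (WW D hW hWp (XX3.j p) (b, 0))
    have hv3 : XX3.d p v = WW D hW hWp (XX3.j p) (b, 0) := hv.trans (hC.tan p _)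
    refine ⟨v, ?_, ?_⟩
    · intro u hu
      rw [hD] at hu
      rw [hg p _ v hv3, XX3_B, XX3_d_fst, hu]
      simp
    · rw [hD]
      apply X3.d_inj p.1
      exact (hX3 p v b hv3).trans hb

end

end Pool.Agent.W482.S33
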